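import Pool.Agent.Helper41.LF.GoalsA

/-!
# Project LF (MP_c307ca_nt), packet LF-REL: a tuple of minimal weight has the smallest psi
-/

set_option autoImplicit false

namespace Pool.Agent.Helper55.LF

open MeasureTheory Finset
open Pool.Agent.Helper41.LF

/-- the integer minors, in the rationals -/
theorem cast_minor {d j : ℕ} (β : Fin j → Fin (d + 1) → ℤ) (r : Fin j → Fin (d + 1)) :
    ((Matrix.det (Matrix.of fun (k l : Fin j) => β k (r l)) : ℤ) : ℚ) =
      Matrix.det (Matrix.of fun (k l : Fin j) => toQ (β k) (r l)) := by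
  have h := RingHom.map_det (Int.castRingHom ℚ) (Matrix.of fun (k l : Fin j) => β k (r l))
  simp only [eq_intCast] at h
  rw [h]
  rfl

theorem cast_wt {d j : ℕ} (β : Fin j → Fin (d + 1) → ℤ) :
    (wt β : ℚ) = ∑ r : Fin j → Fin (d + 1), |Matrix.det (Matrix.of fun (k l : Fin j) => toQ (β k) (r l))| := by
  unfold wt
  rw [Nat.cast_sum]
  refine Finset.sum_congr rfl fun r _ => ?_
  rw [← cast_minor, Nat.cast_natAbs, Int.cast_abs]

/-- rational relations give relations of the minors -/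
theorem minor_rel {d j : ℕ} (β β' : Fin j → Fin (d + 1) → ℤ) (A : Fin j → Fin j → ℚ)
    (hA : ∀ k, ∑ l, A k l • toQ (β l) = toQ (β' k)) (r : Fin j → Fin (d + 1)) :
    Matrix.det (Matrix.of fun (k l : Fin j) => toQ (β' k) (r l)) =
      Matrix.det (Matrix.of A) * Matrix.det (Matrix.of fun (k l : Fin j) => toQ (β k) (r l)) := by
  rw [← Matrix.det_mul]
  congr 1
  ext k l
  rw [Matrix.mul_apply, Matrix.of_apply, ← hA k, Finset.sum_apply]
  rfl

theorem cast_rel {d j : ℕ} (β β' : Fin j → Fin (d + 1) → ℤ) (A : Fin j → Fin j → ℚ)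
    (hA : ∀ k, ∑ l, A k l • toQ (β l) = toQ (β' k)) (k : Fin j) (i : Fin (d + 1)) :
    (β' k i : ℝ) = ∑ l, (A k l : ℝ) * (β l i : ℝ) := by
  have h := congrFun (hA k) i
  rw [Finset.sum_apply] at h
  have h2 : ∑ l, A k l * (β l i : ℚ) = (β' k i : ℚ) := h
  have h3 : ((∑ l, A k l * (β l i : ℚ) : ℚ) : ℝ) = ((β' k i : ℚ) : ℝ) := by rw [h2]
  rw [Rat.cast_sum, Rat.cast_intCast] at h3
  rw [← h3]
  refine Finset.sum_congr rfl fun l _ => ?_
  rw [Rat.cast_mul, Rat.cast_intCast]

theorem hx_rel {d j : ℕ} (a K x : ℝ) (β β' : Fin j → Fin (d + 1) → ℤ) (A : Fin j → Fin j → ℚ)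
    (hA : ∀ k, ∑ l, A k l • toQ (β l) = toQ (β' k)) (k : Fin j) (i : Fin (d + 1)) :
    hx d a K x (β' k) i = ∑ l, (A k l : ℝ) * hx d a K x (β l) i := by
  unfold hx
  by_cases hi : i = 0
  · simp only [hi, if_true]
    rw [cast_rel β β' A hA k 0, Finset.mul_sum]
    refine Finset.sum_congr rfl fun l _ => ?_
    ring
  · simp only [hi, if_false]
    rw [cast_rel β β' A hA k 0, cast_rel β β' A hA k i, Finset.sum_mul, ← Finset.sum_sub_distrib, Finset.mul_sum]
    refine Finset.sum_congr rfl fun l _ => ?_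
    ring

theorem mnr_rel {d j : ℕ} (a K x : ℝ) (β β' : Fin j → Fin (d + 1) → ℤ) (A : Fin j → Fin j → ℚ)
    (hA : ∀ k, ∑ l, A k l • toQ (β l) = toQ (β' k)) (r : Fin j → Fin (d + 1)) :
    mnr a K x β' r = ((Matrix.det (Matrix.of A) : ℚ) : ℝ) * mnr a K x β r := by
  have h := RingHom.map_det (Rat.castHom ℝ) (Matrix.of A)
  have h1 : ((Matrix.det (Matrix.of A) : ℚ) : ℝ) = Matrix.det (Matrix.of fun k l => (A k l : ℝ)) := h
  rw [h1]
  unfold mnr
  rw [← Matrix.det_mul]
  congr 1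
  ext k l
  rw [Matrix.mul_apply, Matrix.of_apply, hx_rel a K x β β' A hA k (r l)]
  rfl

theorem thm_REL (hN : S_NZM) : S_REL := by
  intro d j j' a K W β β' hj hmin hli hmem x
  subst hj
  obtain ⟨⟨hβli, hβspan⟩, hmin'⟩ := hmin
  have hex : ∀ k, ∃ c : Fin j' → ℚ, ∑ l, c l • toQ (β l) = toQ (β' k) := by
    intro k
    have h1 : toQ (β' k) ∈ Submodule.span ℚ (Set.range fun k => toQ (β k)) := by
      rw [hβspan]; exact hmem k
    exact (Submodule.mem_span_range_iff_exists_fun ℚ).1 h1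
  choose A hA using hex
  -- the span of the second tuple
  have hspan' : Submodule.span ℚ (Set.range fun k => toQ (β' k)) = W := by
    refine Submodule.eq_of_le_of_finrank_eq ?_ ?_
    · rw [Submodule.span_le]
      rintro _ ⟨k, rfl⟩
      exact hmem k
    · rw [finrank_span_eq_card hli, ← hβspan, finrank_span_eq_card hβli]
  have hw : (wt β' : ℚ) = |Matrix.det (Matrix.of A)| * wt β := by
    rw [cast_wt, cast_wt, Finset.mul_sum]
    refine Finset.sum_congr rfl fun r _ => ?_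
    rw [minor_rel β β' A hA r, abs_mul]
  have hle : (wt β : ℚ) ≤ (wt β' : ℚ) := by
    exact_mod_cast hmin' β' ⟨hli, hspan'⟩
  have hpos : (0 : ℚ) < wt β := by
    obtain ⟨r, hr⟩ := hN j' (d + 1) (fun k => toQ (β k)) hβli
    rw [cast_wt]
    refine lt_of_lt_of_le (abs_pos.2 hr) ?_
    exact Finset.single_le_sum (f := fun r : Fin j' → Fin (d + 1) =>
      |Matrix.det (Matrix.of fun (k l : Fin j') => toQ (β k) (r l))|) (fun _ _ => abs_nonneg _) (Finset.mem_univ r)
  have hdet : (1 : ℚ) ≤ |Matrix.det (Matrix.of A)| := by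
    rw [hw] at hle
    by_contra hcon
    rw [not_le] at hcon
    have := mul_lt_mul_of_pos_right hcon hpos
    linarith
  have hdetR : (1 : ℝ) ≤ |((Matrix.det (Matrix.of A) : ℚ) : ℝ)| := by
    have : ((1 : ℚ) : ℝ) ≤ ((|Matrix.det (Matrix.of A)| : ℚ) : ℝ) := by exact_mod_cast hdet
    rw [Rat.cast_abs] at this
    simpa using this
  unfold psi
  refine Finset.sum_le_sum fun r _ => ?_
  rw [mnr_rel a K x β β' A hA r, abs_mul]
  exact le_mul_of_one_le_left (abs_nonneg _) hdetR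

end Pool.Agent.Helper55.LF
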